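import Pool.Agent.Y842.QG.Sig

/-!
Library Y842.QG (helper842), part 5: logarithmic averages in total variation, exceptional sets.
-/

set_option autoImplicit false

open Finset

namespace Pool.Agent.Y842.QG

open Pool.Agent.Y842.PG
open Pool.Agent.Helper602.MK (ee)
open Pool.Agent.Helper602.MK.N_J1c (c_ee_add c_ee_int c_norm_ee)
open Pool.Agent.TH823.MRS (ExpoSmall)
open Pool.Agent.Y304.U (sE ind ind_nonneg)
open Pool.Agent.Y958.U (LZ)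
open Pool.Agent.Y842.EL (LZ_eps LZ_diag')

/-- the functions, multiplicative on the positive integers -/
theorem pair_sg1 (f : ℕ → ℂ) (hb : ∀ n, ‖f n‖ ≤ 1) (hE : ExpoSmall f) (hf : ∀ p : ℕ, p.Prime → Flp f p)
    (a c : ℕ) (hac : a ≠ c) (ε : ℝ) (hε : 0 < ε) :
    ∃ X₀ : ℕ, ∀ X : ℕ, X₀ ≤ X → ∀ A : Multiset ℕ → ℂ, (∀ s, ‖A s‖ ≤ 1) → ∀ g : ℕ → ℂ, (∀ n, 1 ≤ n → ‖g n‖ ≤ 1) →
      (∀ m n : ℕ, 1 ≤ m → 1 ≤ n → Nat.Coprime m n → g (m * n) = g m * g n) → ∀ (α : ℕ → ℝ) (y : ℕ → ℕ),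
        (∀ N, y N ≤ N) →
        ∑ N ∈ Icc 1 X, ‖∑ n ∈ Icc 1 (y N), A (sg (n + c)) * g (n + c) * f (n + a) * ee (α N * n)‖ / (N : ℝ) ^ 2 ≤
          ε * Real.log X := by
  obtain ⟨X₀, h1⟩ := pair_sg f hb hE hf a c hac ε hε
  refine ⟨X₀, fun X hX A hA g hg hm α y hy => ?_⟩
  have h2 := h1 X hX A hA (z0 g) (z0_le g hg) (z0_mul g hm) α y hy
  refine le_trans (le_of_eq ?_) h2
  refine sum_congr rfl fun N _ => ?_
  congr 2
  refine sum_congr rfl fun n hn => ?_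
  have h3 := (mem_Icc.1 hn).1
  have e : z0 g (n + c) = g (n + c) := by
    unfold z0
    rw [if_neg (by omega)]
  rw [e]
  ring

/-- summation by parts -/
lemma parts (b : ℕ → ℂ) (X : ℕ) : ∑ n ∈ Icc 1 X, b n / n =
    ∑ N ∈ Icc 1 X, (∑ n ∈ Icc 1 N, b n) / ((N : ℂ) * (N + 1)) + (∑ n ∈ Icc 1 X, b n) / ((X : ℂ) + 1) := by
  induction X with
  | zero => simp
  | succ X ih =>
    rw [sum_Icc_succ_top (by omega), ih, sum_Icc_succ_top (by omega) (fun N => (∑ n ∈ Icc 1 N, b n) / ((N : ℂ) * (N + 1))),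
      sum_Icc_succ_top (by omega : 1 ≤ X + 1) b]
    have h1 : ((X : ℂ) + 1) ≠ 0 := by exact_mod_cast Nat.succ_ne_zero X
    have h2 : ((X : ℂ) + 1 + 1) ≠ 0 := by exact_mod_cast Nat.succ_ne_zero (X + 1)
    push_cast
    field_simp
    ring

/-- logarithmic averages -/
lemma parts_le (b : ℕ → ℂ) (hb : ∀ n, 1 ≤ n → ‖b n‖ ≤ 1) (X : ℕ) : ‖∑ n ∈ Icc 1 X, b n / n‖ ≤
    ∑ N ∈ Icc 1 X, ‖∑ n ∈ Icc 1 N, b n‖ / (N : ℝ) ^ 2 + 1 := by
  rw [parts]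
  refine (norm_add_le _ _).trans (add_le_add ((norm_sum_le _ _).trans (sum_le_sum fun N hN => ?_)) ?_)
  · have hN1 := (mem_Icc.1 hN).1
    have hN0 : (0 : ℝ) < N := by exact_mod_cast hN1
    rw [norm_div]
    apply div_le_div_of_nonneg_left (norm_nonneg _) (by positivity)
    rw [norm_mul, Complex.norm_natCast]
    have e : ‖((N : ℂ) + 1)‖ = (N : ℝ) + 1 := by
      rw [← Nat.cast_succ, Complex.norm_natCast]
      push_cast
      rfl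
    rw [e]
    nlinarith
  · rw [norm_div]
    have e : ‖((X : ℂ) + 1)‖ = (X : ℝ) + 1 := by
      rw [← Nat.cast_succ, Complex.norm_natCast]
      push_cast
      rfl
    rw [e, div_le_one (by positivity)]
    refine (norm_sum_le _ _).trans ?_
    calc ∑ n ∈ Icc 1 X, ‖b n‖ ≤ ∑ n ∈ Icc 1 X, (1 : ℝ) := sum_le_sum fun n hn => hb n (mem_Icc.1 hn).1
      _ = X := by simp
      _ ≤ (X : ℝ) + 1 := by linarith

/-- **total variation**, logarithmic averages -/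
theorem tv_sg (f : ℕ → ℂ) (hb : ∀ n, ‖f n‖ ≤ 1) (hE : ExpoSmall f) (hf : ∀ p : ℕ, p.Prime → Flp f p)
    (a c : ℕ) (hac : a ≠ c) (ε : ℝ) (hε : 0 < ε) :
    ∃ X₀ : ℕ, ∀ X : ℕ, X₀ ≤ X → ∀ g : ℕ → ℂ, (∀ n, 1 ≤ n → ‖g n‖ ≤ 1) →
      (∀ m n : ℕ, 1 ≤ m → 1 ≤ n → Nat.Coprime m n → g (m * n) = g m * g n) → ∀ α : ℝ,
        ∑ s ∈ (Icc 1 X).image (fun n => sg (n + c)),
          ‖∑ n ∈ (Icc 1 X).filter (fun n => sg (n + c) = s), g (n + c) * f (n + a) * ee (α * n) / n‖ ≤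
          ε * Real.log X := by
  classical
  obtain ⟨X₁, h1⟩ := pair_sg1 f hb hE hf a c hac (ε / 2) (by positivity)
  obtain ⟨X₂, hX₂⟩ := Filter.eventually_atTop.1 ((Filter.tendsto_atTop.1
    (Real.tendsto_log_atTop.comp tendsto_natCast_atTop_atTop)) (2 / ε))
  refine ⟨X₁ + X₂, fun X hX g hg hm α => ?_⟩
  have hlog : 2 / ε ≤ Real.log X := hX₂ X (by omega)
  set W : Multiset ℕ → ℂ := fun s =>
    ∑ n ∈ (Icc 1 X).filter (fun n => sg (n + c) = s), g (n + c) * f (n + a) * ee (α * n) / n with hW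
  have hph : ∀ s, ∃ A : ℂ, ‖A‖ ≤ 1 ∧ A * W s = ((‖W s‖ : ℝ) : ℂ) := fun s => Pool.Agent.TH823.MRS.phase (W s)
  choose A hA1 hA2 using hph
  set b : ℕ → ℂ := fun n => A (sg (n + c)) * g (n + c) * f (n + a) * ee (α * n) with hbd
  have hb1 : ∀ n, 1 ≤ n → ‖b n‖ ≤ 1 := by
    intro n hn
    rw [hbd]
    show ‖A (sg (n + c)) * g (n + c) * f (n + a) * ee (α * n)‖ ≤ 1
    rw [norm_mul, norm_mul, norm_mul, c_norm_ee, mul_one]
    exact mul_le_one₀ (mul_le_one₀ (hA1 _) (norm_nonneg _) (hg _ (by omega))) (norm_nonneg _) (hb _)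
  have h2 := h1 X (by omega) A hA1 g hg hm (fun _ => α) (fun N => N) (fun _ => le_rfl)
  have h3 := parts_le b hb1 X
  have h4 : ∑ n ∈ Icc 1 X, b n / n = ((∑ s ∈ (Icc 1 X).image (fun n => sg (n + c)), ‖W s‖ : ℝ) : ℂ) := by
    have e1 : ∑ n ∈ Icc 1 X, b n / n = ∑ s ∈ (Icc 1 X).image (fun n => sg (n + c)),
        ∑ n ∈ (Icc 1 X).filter (fun n => sg (n + c) = s), b n / n :=
      (sum_fiberwise_of_maps_to (fun n hn => mem_image_of_mem _ hn) _).symm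
    rw [e1, Complex.ofReal_sum]
    refine sum_congr rfl fun s _ => ?_
    rw [← hA2 s, hW]
    simp only
    rw [mul_sum]
    refine sum_congr rfl fun n hn => ?_
    rw [← (mem_filter.1 hn).2, hbd]
    ring
  rw [h4, Complex.norm_real, Real.norm_of_nonneg (sum_nonneg fun _ _ => norm_nonneg _)] at h3
  have h5 : 1 ≤ ε / 2 * Real.log X := by
    calc (1 : ℝ) = ε / 2 * (2 / ε) := by field_simp
      _ ≤ ε / 2 * Real.log X := mul_le_mul_of_nonneg_left hlog (by positivity)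
  have h6 : ∑ N ∈ Icc 1 X, ‖∑ n ∈ Icc 1 N, b n‖ / (N : ℝ) ^ 2 ≤ ε / 2 * Real.log X := h2
  linarith

/-- **one exceptional set** for given functions -/
theorem exc_sg (f : ℕ → ℂ) (hb : ∀ n, ‖f n‖ ≤ 1) (hE : ExpoSmall f) (hf : ∀ p : ℕ, p.Prime → Flp f p)
    (A : Multiset ℕ → ℂ) (hA : ∀ s, ‖A s‖ ≤ 1) (g : ℕ → ℂ) (hg : ∀ n, 1 ≤ n → ‖g n‖ ≤ 1)
    (hm : ∀ m n : ℕ, 1 ≤ m → 1 ≤ n → Nat.Coprime m n → g (m * n) = g m * g n) :
    ∃ E : Set ℕ, LZ E ∧ ∀ a c : ℕ, a ≠ c → ∀ ε : ℝ, 0 < ε → ∃ N₀ : ℕ, ∀ N : ℕ, N₀ ≤ N → N ∉ E →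
      ∀ (α : ℝ) (y : ℕ), y ≤ N →
        ‖∑ n ∈ Icc 1 y, A (sg (n + c)) * g (n + c) * f (n + a) * ee (α * n)‖ ≤ ε * N := by
  classical
  obtain ⟨F, hF, h1⟩ := LZ_diag' (ι := ℕ × ℕ × ℕ)
    (fun t => {N : ℕ | t.1 ≠ t.2.1 ∧ ∃ (α : ℝ) (y : ℕ), y ≤ N ∧ 1 / ((t.2.2 : ℝ) + 1) * N <
      ‖∑ n ∈ Icc 1 y, A (sg (n + t.2.1)) * g (n + t.2.1) * f (n + t.1) * ee (α * n)‖}) (by
    rintro ⟨a, c, j⟩
    rw [LZ_eps]
    intro ε hε
    by_cases hac : a ≠ c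
    swap
    · refine ⟨0, fun X _ => ?_⟩
      have e : {N : ℕ | a ≠ c ∧ ∃ (α : ℝ) (y : ℕ), y ≤ N ∧ 1 / ((j : ℝ) + 1) * N <
          ‖∑ n ∈ Icc 1 y, A (sg (n + c)) * g (n + c) * f (n + a) * ee (α * n)‖} = ∅ := by
        ext N
        simp [hac]
      show sE {N : ℕ | a ≠ c ∧ ∃ (α : ℝ) (y : ℕ), y ≤ N ∧ 1 / ((j : ℝ) + 1) * N <
          ‖∑ n ∈ Icc 1 y, A (sg (n + c)) * g (n + c) * f (n + a) * ee (α * n)‖} X ≤ _
      rw [e]
      unfold sE ind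
      simp only [Set.mem_empty_iff_false, if_false, zero_div, sum_const_zero]
      exact mul_nonneg hε.le (Real.log_natCast_nonneg _)
    have hj0 : (0 : ℝ) < (j : ℝ) + 1 := by positivity
    obtain ⟨X₀, h2⟩ := pair_sg1 f hb hE hf a c hac (ε / (j + 1)) (by positivity)
    refine ⟨X₀, fun X hX => ?_⟩
    set T : Set ℕ := {N : ℕ | a ≠ c ∧ ∃ (α : ℝ) (y : ℕ), y ≤ N ∧ 1 / ((j : ℝ) + 1) * N <
          ‖∑ n ∈ Icc 1 y, A (sg (n + c)) * g (n + c) * f (n + a) * ee (α * n)‖} with hT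
    have hex : ∀ N : ℕ, ∃ (α : ℝ) (y : ℕ), y ≤ N ∧ (N ∈ T → 1 / ((j : ℝ) + 1) * N <
          ‖∑ n ∈ Icc 1 y, A (sg (n + c)) * g (n + c) * f (n + a) * ee (α * n)‖) := by
      intro N
      by_cases hN : N ∈ T
      · obtain ⟨-, α, y, hy, h3⟩ := hN
        exact ⟨α, y, hy, fun _ => h3⟩
      · exact ⟨0, 0, Nat.zero_le _, fun h3 => (hN h3).elim⟩
    choose α y hy h3 using hex
    have h4 := h2 X hX A hA g hg hm α y hy
    have h5 : 1 / ((j : ℝ) + 1) * sE T X ≤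
        ∑ N ∈ Icc 1 X, ‖∑ n ∈ Icc 1 (y N), A (sg (n + c)) * g (n + c) * f (n + a) * ee (α N * n)‖ / (N : ℝ) ^ 2 := by
      unfold sE
      rw [mul_sum]
      refine sum_le_sum fun N hN => ?_
      have hN0 : (0 : ℝ) < N := by exact_mod_cast (mem_Icc.1 hN).1
      unfold ind
      split_ifs with h6
      · rw [le_div_iff₀ (by positivity)]
        calc 1 / ((j : ℝ) + 1) * (1 / N) * (N : ℝ) ^ 2 = 1 / ((j : ℝ) + 1) * N := by field_simp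
          _ ≤ _ := (h3 N h6).le
      · rw [zero_div, mul_zero]
        positivity
    have h6 : 1 / ((j : ℝ) + 1) * sE T X ≤ ε / (j + 1) * Real.log X := h5.trans h4
    have h7 := mul_le_mul_of_nonneg_left h6 hj0.le
    have e1 : ((j : ℝ) + 1) * (1 / ((j : ℝ) + 1) * sE T X) = sE T X := by field_simp
    have e2 : ((j : ℝ) + 1) * (ε / (j + 1) * Real.log X) = ε * Real.log X := by field_simp
    rw [e1, e2] at h7
    exact h7)
  refine ⟨F, hF, fun a c hac ε hε => ?_⟩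
  obtain ⟨j, hj⟩ := exists_nat_gt (1 / ε)
  obtain ⟨N₀, h2⟩ := h1 (a, c, j)
  refine ⟨N₀, fun N hN hNF α y hy => ?_⟩
  by_contra hcon
  rw [not_le] at hcon
  apply hNF
  apply h2 N hN
  rw [Set.mem_ofPred_eq]
  refine ⟨hac, α, y, hy, lt_of_le_of_lt ?_ hcon⟩
  apply mul_le_mul_of_nonneg_right _ (Nat.cast_nonneg N)
  show 1 / ((j : ℝ) + 1) ≤ ε
  rw [div_le_iff₀ (by positivity)]
  rw [div_lt_iff₀ hε] at hj
  nlinarith

end Pool.Agent.Y842.QG
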