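import Pool.Agent.Y842.QG.Two
import Pool.Agent.Y842.PG.Ell
import Pool.Agent.Y842.EL.Dens

/-!
Library Y842.QG (helper842), part 4: functions of the prime signature.
-/

set_option autoImplicit false

open Finset

namespace Pool.Agent.Y842.QG

open Pool.Agent.Y842.PG
open Pool.Agent.Helper602.MK (ee)
open Pool.Agent.Helper602.MK.N_J1c (c_ee_add c_ee_int c_norm_ee)
open Pool.Agent.TH823.MRS (ExpoSmall)
open Pool.Agent.Y304.U (sE ind ind_nonneg)

/-- the prime signature: the multiset of the exponents -/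
def sg (n : ℕ) : Multiset ℕ := n.primeFactors.val.map (fun p => n.factorization p)

lemma sg_mul (p n : ℕ) (hp : p.Prime) (hn : ¬ p ∣ n) : sg (p * n) = 1 ::ₘ sg n := by
  have hn0 : n ≠ 0 := by
    rintro rfl
    exact hn (dvd_zero _)
  have hpn : p ∉ n.primeFactors := fun h => hn (Nat.dvd_of_mem_primeFactors h)
  have h1 : (p * n).primeFactors = insert p n.primeFactors := by
    rw [Nat.primeFactors_mul hp.ne_zero hn0, hp.primeFactors, insert_eq]
  have h2 : (p * n).primeFactors.val = p ::ₘ n.primeFactors.val := by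
    rw [h1, insert_val_of_notMem hpn]
  have h3 : (p * n).factorization = p.factorization + n.factorization :=
    Nat.factorization_mul hp.ne_zero hn0
  unfold sg
  rw [h2, Multiset.map_cons]
  congr 1
  · rw [h3, Finsupp.add_apply, hp.factorization_self, Nat.factorization_eq_zero_of_not_dvd hn]
  · refine Multiset.map_congr rfl fun q hq => ?_
    have hq' : q ∈ n.primeFactors := hq
    have hne : p ≠ q := by
      rintro rfl
      exact hpn hq'
    rw [h3, Finsupp.add_apply, hp.factorization, Finsupp.single_apply, if_neg hne, zero_add]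

/-- functions of the signature times functions with the relation at the primes -/
lemma C1_sg (A : Multiset ℕ → ℂ) (hA : ∀ s, ‖A s‖ ≤ 1) (G : ℕ → ℂ) (hG : ∀ n, ‖G n‖ ≤ 1)
    (hGF : ∀ p : ℕ, p.Prime → Flp G p) : C1 (fun n => A (sg n) * G n) := by
  refine ⟨fun n => ?_, fun n => A ((sg n).erase 1) * G n, fun n => ?_, fun p hp => ?_⟩
  · rw [norm_mul]
    exact mul_le_one₀ (hA _) (norm_nonneg _) (hG _)
  · rw [norm_mul]
    exact mul_le_one₀ (hA _) (norm_nonneg _) (hG _)
  · obtain ⟨c, hc, h1⟩ := hGF p hp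
    refine ⟨c, hc, fun n hn => ?_⟩
    show A ((sg (p * n)).erase 1) * G (p * n) = c * (A (sg n) * G n)
    rw [sg_mul p n hp hn, Multiset.erase_cons_head, h1 n hn]
    ring

/-- **functions of the signature times arbitrary multiplicative functions** -/
theorem pair_sg (f : ℕ → ℂ) (hb : ∀ n, ‖f n‖ ≤ 1) (hE : ExpoSmall f) (hf : ∀ p : ℕ, p.Prime → Flp f p)
    (a c : ℕ) (hac : a ≠ c) (ε : ℝ) (hε : 0 < ε) :
    ∃ X₀ : ℕ, ∀ X : ℕ, X₀ ≤ X → ∀ A : Multiset ℕ → ℂ, (∀ s, ‖A s‖ ≤ 1) → ∀ g : ℕ → ℂ, (∀ n, ‖g n‖ ≤ 1) →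
      (∀ m n : ℕ, Nat.Coprime m n → g (m * n) = g m * g n) → ∀ (α : ℕ → ℝ) (y : ℕ → ℕ), (∀ N, y N ≤ N) →
        ∑ N ∈ Icc 1 X, ‖∑ n ∈ Icc 1 (y N), f (n + a) * (A (sg (n + c)) * g (n + c)) * ee (α N * n)‖ / (N : ℝ) ^ 2 ≤
          ε * Real.log X := by
  set δ : ℝ := min 1 (ε / 4) with hδ
  have hδ0 : 0 < δ := lt_min one_pos (by positivity)
  have hδ1 : δ ≤ 1 := min_le_left _ _
  have hδε : δ ≤ ε / 4 := min_le_right _ _
  obtain ⟨X₁, hX₁⟩ := all_phases2 f hb hE hf a c hac δ hδ0 hδ1 (ε / 4) (by positivity)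
  obtain ⟨X₂, hX₂⟩ := Filter.eventually_atTop.1 ((Filter.tendsto_atTop.1
    (Real.tendsto_log_atTop.comp tendsto_natCast_atTop_atTop)) (20 / ε + 1))
  refine ⟨X₁ + X₂ + 1, fun X hX A hA g hg hm α y hy => ?_⟩
  have hlog : 20 / ε + 1 ≤ Real.log X := hX₂ X (by omega)
  have hlog1 : (1 : ℝ) ≤ Real.log X := by
    have : 0 < 20 / ε := by positivity
    linarith
  have hlog2 : 4 ≤ ε / 4 * Real.log X := by
    have h1 : ε / 4 * (20 / ε + 1) ≤ ε / 4 * Real.log X := mul_le_mul_of_nonneg_left hlog (by positivity)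
    have h2 : ε / 4 * (20 / ε + 1) = 5 + ε / 4 := by
      field_simp
      ring
    linarith
  have key := reduct (r := 1) (fun _ => c) X (X + c) (fun _ => le_refl _) (fun N => 1 / (N : ℝ) ^ 2)
    (fun N => by positivity) y hy (fun N n => f (n + a) * A (sg (n + c)) * ee (α N * n)) (ε * Real.log X) (by
      intro G hG hGF
      have hGA : ∀ n, ‖A (sg n) * G 0 n‖ ≤ 1 := fun n => by
        rw [norm_mul]
        exact mul_le_one₀ (hA _) (norm_nonneg _) (hG _ _)
      have h1 := hX₁ X (by omega) (fun n => A (sg n) * G 0 n) (C1_sg A hA (G 0) (hG 0) (fun p hp => hGF p hp 0))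
      set T : Set ℕ := {N : ℕ | ∃ α : ℝ, ∃ y ≤ N, δ * N < ‖Cg ![f, fun n => A (sg n) * G 0 n] ![a, c] y α‖} with hT
      have h2 := l1_of_sE (Icc 1 X) X (Subset.refl _) (fun N =>
        ‖∑ n ∈ Icc 1 (y N), f (n + a) * A (sg (n + c)) * ee (α N * n) * ∏ t : Fin 1, G t (n + c)‖) T δ hδ0.le (by
          intro N _
          refine (norm_sum_le _ _).trans ?_
          calc ∑ n ∈ Icc 1 (y N), ‖f (n + a) * A (sg (n + c)) * ee (α N * n) * ∏ t : Fin 1, G t (n + c)‖ ≤
              ∑ n ∈ Icc 1 (y N), (1 : ℝ) := by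
                refine sum_le_sum fun n _ => ?_
                rw [norm_mul, norm_mul, norm_mul, c_norm_ee, mul_one, norm_prod]
                have e1 := hb (n + a)
                have e2 : ∏ t : Fin 1, ‖G t (n + c)‖ ≤ 1 :=
                  prod_le_one (fun _ _ => norm_nonneg _) (fun t _ => hG t _)
                have e3 : 0 ≤ ∏ t : Fin 1, ‖G t (n + c)‖ := prod_nonneg (fun _ _ => norm_nonneg _)
                exact mul_le_one₀ (mul_le_one₀ e1 (norm_nonneg _) (hA _)) e3 e2
            _ = (y N : ℝ) := by simp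
            _ ≤ N := by exact_mod_cast hy N) (by
          intro N _ hNT
          have h3 : ‖Cg ![f, fun n => A (sg n) * G 0 n] ![a, c] (y N) (α N)‖ ≤ δ * N := by
            by_contra h
            push Not at h
            exact hNT ⟨α N, y N, hy N, h⟩
          have h4 := sum_shift_le (fun n => pr ![f, fun n => A (sg n) * G 0 n] ![a, c] 1 n * ee (α N * n)) (fun n => by
            show ‖pr ![f, fun n => A (sg n) * G 0 n] ![a, c] 1 n * ee (α N * n)‖ ≤ 1
            rw [norm_mul, c_norm_ee, mul_one]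
            refine pr_le _ (fun t n => ?_) _ _ _
            fin_cases t
            · exact hb n
            · exact hGA n) (y N)
          have h5 : ∑ n ∈ Icc 1 (y N), pr ![f, fun n => A (sg n) * G 0 n] ![a, c] 1 n * ee (α N * n) =
              ∑ n ∈ Icc 1 (y N), f (n + a) * A (sg (n + c)) * ee (α N * n) * ∏ t : Fin 1, G t (n + c) := by
            refine sum_congr rfl fun n _ => ?_
            rw [pr_two, Fin.prod_univ_one, one_mul, one_mul]
            ring
          have h6 : ‖∑ n ∈ Icc 1 (y N), pr ![f, fun n => A (sg n) * G 0 n] ![a, c] 1 n * ee (α N * n)‖ ≤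
            ‖Cg ![f, fun n => A (sg n) * G 0 n] ![a, c] (y N) (α N)‖ + 2 := h4
          rw [h5] at h6
          linarith)
      have h3 : ∑ N ∈ Icc 1 X, 1 / (N : ℝ) ^ 2 * ‖∑ n ∈ Icc 1 (y N), f (n + a) * A (sg (n + c)) * ee (α N * n) *
          ∏ t : Fin 1, G t (n + c)‖ = ∑ N ∈ Icc 1 X, ‖∑ n ∈ Icc 1 (y N), f (n + a) * A (sg (n + c)) * ee (α N * n) *
          ∏ t : Fin 1, G t (n + c)‖ / (N : ℝ) ^ 2 := by
        refine sum_congr rfl fun N _ => ?_
        rw [one_div, mul_comm, div_eq_mul_inv]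
      refine (le_of_eq h3).trans (h2.trans ?_)
      have h4 : δ * (1 + Real.log X) ≤ ε / 4 * (2 * Real.log X) := by
        apply mul_le_mul hδε (by linarith) (by linarith) (by positivity)
      linarith) (by positivity) (fun _ => g) (fun _ n => hg n) (fun _ m n h => hm m n h)
  refine le_trans (le_of_eq ?_) key
  refine sum_congr rfl fun N _ => ?_
  rw [one_div, mul_comm (((N : ℝ) ^ 2)⁻¹), ← div_eq_mul_inv]
  congr 2
  refine sum_congr rfl fun n _ => ?_
  show f (n + a) * (A (sg (n + c)) * g (n + c)) * ee (α N * n) =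
    f (n + a) * A (sg (n + c)) * ee (α N * n) * ∏ t : Fin 1, g (n + c)
  rw [Fin.prod_univ_one]
  ring

end Pool.Agent.Y842.QG
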