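import Pool.Agent.Y842.QG.Chain2

/-!
Library Y842.QG (helper842), part 3: minor arcs, rational phases and all phases for pairs of functions related by
the primes.
-/

set_option autoImplicit false

open Finset

namespace Pool.Agent.Y842.QG

open Pool.Agent.Y842.PG
open Pool.Agent.Y842.PH
open Pool.Agent.Helper602.MK (ee)
open Pool.Agent.Helper602.MK.N_J1c (c_ee_add c_ee_int c_norm_ee)
open Pool.Agent.TH112.BL (QD)
open Pool.Agent.TH823.MRS (ExpoSmall)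
open Pool.Agent.Y304.U (sE ind ind_nonneg)

/-- the class of functions -/
def CF2 {r : ℕ} (G' : Fin r → ℕ → ℂ) : Prop := (∀ t n, ‖G' t n‖ ≤ 1) ∧ ∃ G : Fin r → ℕ → ℂ,
  (∀ t n, ‖G t n‖ ≤ 1) ∧ ∀ p : ℕ, p.Prime → ∀ t, Fl2 (G' t) (G t) p

/-- one function -/
def C1 (g' : ℕ → ℂ) : Prop := (∀ n, ‖g' n‖ ≤ 1) ∧ ∃ g : ℕ → ℂ, (∀ n, ‖g n‖ ≤ 1) ∧ ∀ p : ℕ, p.Prime → Fl2 g' g p

/-- **minor arcs**, products of any number of functions, uniformly -/
theorem minor2 {r : ℕ} (hr : 1 ≤ r) (h : ℕ) (hs : Fin r → ℕ) (hhs : ∀ t, hs t ≤ h) (δ : ℝ) (hδ : 0 < δ)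
    (hδ1 : δ ≤ 1) (η : ℝ) (hη : 0 < η) :
    ∃ R X₀ : ℕ, ∀ X : ℕ, X₀ ≤ X → ∀ G : Fin r → ℕ → ℂ, CF2 G → sE (Bad G hs GdM R δ) X ≤ η * Real.log X := by
  refine cells hs CF2 (fun G hG => hG.1) GdM ?_ ?_ ?_ δ hδ hδ1 η hη
  · intro R R' N α hRR hG q hq hqR A
    refine le_trans ?_ (hG q hq (hqR.trans hRR) A)
    exact_mod_cast hRR
  · intro R N N' α hNN hG q hq hqR A
    refine (hG q hq hqR A).trans ?_
    apply mul_le_mul_of_nonneg_left _ (abs_nonneg _)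
    exact_mod_cast hNN
  intro ε hε
  obtain ⟨D, hD, Bc, hBc, b₀, hch⟩ := chain_g2 hr h hs hhs ε hε
  obtain ⟨I₁, hI₁⟩ := cc_lim r 1 (ε / 10) (by positivity)
  refine ⟨D, hD, Bc, hBc, b₀ + I₁ + r + 1, fun b hb n => ?_⟩
  obtain ⟨M₀, hM₀⟩ := hch b (by omega) n
  set I : ℕ := b + n * D with hI
  refine ⟨2 ^ (8 * 2 ^ I) + 2 * ((2 ^ (I + 1)).factorial * 2 ^ I), M₀ + 2 * (2 ^ (8 * 2 ^ I) * 2 ^ I +
    2 ^ I * (4 * 2 ^ I * (2 ^ r * h))), fun M hM G' hG' α S hS hGd => ?_⟩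
  obtain ⟨hG'1, G, hG1, hGF⟩ := hG'
  choose A q β hq1 hqY hAq hα hβ using fun k : ℕ => dir (α k) (2 ^ (8 * 2 ^ (b + k * D))) (by positivity)
  have h1 := hM₀ M (by omega) G' G hG'1 hG1 A q β S hS (fun k p hp t => hGF p (QD_mem (hS k hp)).1 t) hq1 hqY hAq
    hβ (by
      intro k hk N hNM hMN P hP hPq
      rcases P.eq_empty_or_nonempty with hPe | hPne
      · rw [hPe, sum_empty]
        positivity
      have hne : (S k).Nonempty := hPne.mono hP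
      have hGk := hGd k hk hne
      set i := b + k * D with hi
      have hiI : i ≤ I := by
        rw [hI, hi]
        have := Nat.mul_le_mul_right D hk.le
        omega
      have hib : b ≤ i := by rw [hi]; omega
      have h2iI : 2 ^ i ≤ 2 ^ I := Nat.pow_le_pow_right (by norm_num) hiI
      have hqI : q k ≤ 2 ^ (8 * 2 ^ I) := (hqY k).trans (Nat.pow_le_pow_right (by norm_num)
        (Nat.mul_le_mul_left _ h2iI))
      have e2 : α k - A k / q k = β k := by rw [hα k]; ring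
      have hβM := hGk (q k) (hq1 k) (hqI.trans (Nat.le_add_right _ _)) (A k)
      rw [e2] at hβM
      have hfac : (2 ^ (i + 1)).factorial * 2 ^ i ≤ (2 ^ (I + 1)).factorial * 2 ^ I :=
        Nat.mul_le_mul (Nat.factorial_le (Nat.pow_le_pow_right (by norm_num) (by omega))) h2iI
      have hβN : ((2 ^ (i + 1)).factorial : ℝ) * 2 ^ i ≤ |β k| * N := by
        have e1 : (M : ℝ) ≤ 2 * N := by exact_mod_cast hMN
        have e3 : |β k| * M ≤ |β k| * (2 * N) := mul_le_mul_of_nonneg_left e1 (abs_nonneg _)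
        have e4 : (((2 ^ (i + 1)).factorial * 2 ^ i : ℕ) : ℝ) ≤ (((2 ^ (I + 1)).factorial * 2 ^ I : ℕ) : ℝ) := by
          exact_mod_cast hfac
        have e5 : (0 : ℝ) ≤ ((2 ^ (8 * 2 ^ I) : ℕ) : ℝ) := Nat.cast_nonneg _
        push_cast at hβM e4 e5
        linarith
      have hN2 : 2 ^ (8 * 2 ^ I) * 2 ^ I + 2 ^ I * (4 * 2 ^ I * (2 ^ r * h)) ≤ N := by omega
      refine bilpr G hG1 h hs hhs i N P (hP.trans (hS k)) _ (sp_th r i N (A k) (q k) (hq1 k) (β k) ?_ P (fun p hp => ?_) ?_ hβN)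
        ?_ (ε / 10) ?_
      · refine le_trans ?_ (hβ k)
        rw [mul_comm (2 ^ (r + 1) : ℝ)]
        apply mul_le_mul_of_nonneg_left _ (abs_nonneg _)
        apply mul_le_mul_of_nonneg_left _ (Nat.cast_nonneg _)
        have : 2 ^ (r + 1) ≤ 2 ^ (8 * 2 ^ (b + k * D)) := Nat.pow_le_pow_right (by norm_num) (by
          have : b + k * D < 2 ^ (b + k * D) := Nat.lt_two_pow_self
          omega)
        exact_mod_cast this
      · have := QD_mem (hS k (hP hp))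
        exact ⟨this.1.pos, this.2.2⟩
      · have e1 : q k * 2 ^ i ≤ N := by
          have e3 : q k * 2 ^ i ≤ 2 ^ (8 * 2 ^ I) * 2 ^ I := Nat.mul_le_mul hqI h2iI
          omega
        exact_mod_cast e1
      · refine le_trans ?_ ((Nat.le_add_left _ _).trans hN2)
        exact Nat.mul_le_mul h2iI (Nat.mul_le_mul_right _ (Nat.mul_le_mul_left _ h2iI))
      · have := hI₁ i (by omega)
        rw [pow_one] at this
        exact this)
  refine le_trans (le_of_eq ?_) h1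
  refine sum_congr rfl fun k _ => ?_
  rw [← hα k]

/-- **rational phases** -/
theorem rat_g2 (f : ℕ → ℂ) (hb : ∀ n, ‖f n‖ ≤ 1) (hE : ExpoSmall f) (hf : ∀ p : ℕ, p.Prime → Flp f p)
    (a c : ℕ) (hac : a ≠ c) (A : ℤ) (q : ℕ) (hq : 1 ≤ q) (hAq : IsCoprime A (q : ℤ)) (δ : ℝ) (hδ : 0 < δ)
    (hδ1 : δ ≤ 1) (η : ℝ) (hη : 0 < η) :
    ∃ X₀ : ℕ, ∀ X : ℕ, X₀ ≤ X → ∀ g : ℕ → ℂ, C1 g →
      sE {N : ℕ | δ * N < ‖Cg ![f, g] ![a, c] N (A / q)‖} X ≤ η * Real.log X := by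
  have h1 := cells (r := 2) ![a, c] (fun G => ∃ g : ℕ → ℂ, C1 g ∧
    G = ![f, g]) (by
      rintro G ⟨g, hg, rfl⟩ t n
      fin_cases t
      · exact hb n
      · exact hg.1 n) (fun _ _ α => α = A / q) (fun _ _ _ _ _ h => h) (fun _ _ _ _ _ h => h) ?_ δ hδ hδ1 η hη
  · obtain ⟨R, X₀, h2⟩ := h1
    refine ⟨X₀, fun X hX g hg => ?_⟩
    have h3 := h2 X hX ![f, g] ⟨g, hg, rfl⟩
    refine le_trans (le_of_eq ?_) h3
    congr 1
    ext N
    unfold Bad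
    rw [Set.mem_ofPred_eq, Set.mem_ofPred_eq]
    constructor
    · intro h
      exact ⟨_, rfl, h⟩
    · rintro ⟨α, rfl, h⟩
      exact h
  intro ε hε
  obtain ⟨D, hD, Bc, hBc, b₀, hch⟩ := chain_g2 (r := 2) (by norm_num) (a + c) ![a, c] (by
    intro t
    fin_cases t
    · show a ≤ a + c
      omega
    · show c ≤ a + c
      omega) ε hε
  obtain ⟨I₁, hI₁⟩ := bil_rat f hb hE a c hac A q hq (ε / 10) (by positivity)
  refine ⟨D, hD, Bc, hBc, b₀ + I₁ + q + 1, fun b hb' n => ?_⟩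
  obtain ⟨M₀, hM₀⟩ := hch b (by omega) n
  choose N₀ hN₀ using fun k : ℕ => hI₁ (b + k * D) (by omega)
  refine ⟨0, M₀ + 2 * ∑ k ∈ range n, N₀ k, fun M hM G hG α S hS hGd => ?_⟩
  obtain ⟨g', ⟨hg', g, hg, hgF⟩, rfl⟩ := hG
  have h1 := hM₀ M (by omega) ![f, g'] ![f, g] (by
      intro t n
      fin_cases t
      · exact hb n
      · exact hg' n) (by
      intro t n
      fin_cases t
      · exact hb n
      · exact hg n) (fun _ => A) (fun _ => q) (fun _ => 0) S hS (by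
      intro k p hp t
      have hpp := (QD_mem (hS k hp)).1
      fin_cases t
      · exact hf p hpp
      · exact hgF p hpp) (fun _ => hq) (by
      intro k
      calc q ≤ 2 ^ q := (Nat.lt_two_pow_self).le
        _ ≤ 2 ^ (8 * 2 ^ (b + k * D)) := Nat.pow_le_pow_right (by norm_num) (by
          have : b + k * D < 2 ^ (b + k * D) := Nat.lt_two_pow_self
          omega)) (fun _ => hAq) (by
      intro k
      rw [abs_zero, zero_mul]
      exact zero_le_one) (by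
      intro k hk N hNM hMN P hP _
      refine hN₀ k N ?_ g hg P (hP.trans (hS k))
      have := single_le_sum (f := N₀) (fun _ _ => Nat.zero_le _) (mem_range.2 hk)
      omega)
  refine le_trans (le_of_eq ?_) h1
  refine sum_congr rfl fun k hk => ?_
  rw [mem_range] at hk
  congr 1
  rcases (S k).eq_empty_or_nonempty with hSe | hSne
  · rw [hSe, sum_empty, sum_empty]
  · rw [hGd k hk hSne, add_zero]

/-- **all phases**, uniformly in one of the functions -/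
theorem all_phases2 (f : ℕ → ℂ) (hb : ∀ n, ‖f n‖ ≤ 1) (hE : ExpoSmall f) (hf : ∀ p : ℕ, p.Prime → Flp f p)
    (a c : ℕ) (hac : a ≠ c) (δ : ℝ) (hδ : 0 < δ) (hδ1 : δ ≤ 1) (η : ℝ) (hη : 0 < η) :
    ∃ X₀ : ℕ, ∀ X : ℕ, X₀ ≤ X → ∀ g : ℕ → ℂ, C1 g →
      sE {N : ℕ | ∃ α : ℝ, ∃ y ≤ N, δ * N < ‖Cg ![f, g] ![a, c] y α‖} X ≤ η * Real.log X := by
  have hbd : ∀ g : ℕ → ℂ, (∀ n, ‖g n‖ ≤ 1) → ∀ (t : Fin 2) (n : ℕ), ‖(![f, g] : Fin 2 → ℕ → ℂ) t n‖ ≤ 1 := by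
    intro g hg t n
    fin_cases t
    · exact hb n
    · exact hg n
  set δ₀ : ℝ := δ / 4 with hδ₀
  have hδ₀0 : 0 < δ₀ := by positivity
  have hδ₀1 : δ₀ ≤ 1 := by rw [hδ₀]; linarith
  obtain ⟨R, X₁, hX₁⟩ := minor2 (r := 2) (by norm_num) (a + c) ![a, c] (by
    intro t
    fin_cases t
    · show a ≤ a + c
      omega
    · show c ≤ a + c
      omega) δ₀ hδ₀0 hδ₀1 (η * δ / 32) (by positivity)
  set δ₁ : ℝ := δ₀ / (1 + 7 * R) with hδ₁
  have h10 : (0 : ℝ) < 1 + 7 * R := by positivity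
  have hδ₁0 : 0 < δ₁ := by positivity
  have hδ₁1 : δ₁ ≤ 1 := by
    rw [hδ₁, div_le_one h10]
    have : (0 : ℝ) ≤ R := Nat.cast_nonneg R
    linarith
  set η₂ : ℝ := η * δ / 32 / ((R + 1) ^ 2 * (8 / δ₁) * 2) with hη₂
  have hη₂0 : 0 < η₂ := by positivity
  have hrat : ∀ q j : ℕ, ∃ X₀ : ℕ, ∀ X : ℕ, X₀ ≤ X → ∀ g : ℕ → ℂ, C1 g → 1 ≤ q → IsCoprime (j : ℤ) (q : ℤ) →
      sE {N : ℕ | δ₁ / 4 * N < ‖Cg ![f, g] ![a, c] N (j / q)‖} X ≤ η₂ * Real.log X := by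
    intro q j
    by_cases h : 1 ≤ q ∧ IsCoprime (j : ℤ) (q : ℤ)
    · obtain ⟨X₀, h1⟩ := rat_g2 f hb hE hf a c hac (j : ℤ) q h.1 h.2 (δ₁ / 4) (by positivity) (by linarith) η₂ hη₂0
      refine ⟨X₀, fun X hX g hg _ _ => ?_⟩
      have := h1 X hX g hg
      push_cast at this
      exact this
    · exact ⟨0, fun X _ g _ h1 h2 => (h ⟨h1, h2⟩).elim⟩
  choose X₂ hX₂ using hrat
  refine ⟨X₁ + ∑ q ∈ range (R + 1), ∑ j ∈ range (R + 1), X₂ q j + 2, fun X hX g hg => ?_⟩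
  have hGb := hbd g hg.1
  have hX2 : 2 ≤ X := by omega
  have hlX := log_two_mul X hX2
  have hlX4 := log_two_mul (2 * X) (by omega)
  have hlog0 : 0 ≤ Real.log (X : ℝ) := Real.log_natCast_nonneg X
  set G : Fin 2 → ℕ → ℂ := ![f, g] with hGd
  set hs : Fin 2 → ℕ := ![a, c] with hhsd
  have hCF : CF2 G := by
    obtain ⟨-, g₀, hg₀, hgF⟩ := hg
    refine ⟨hGb, ![f, g₀], hbd g₀ hg₀, fun p hp t => ?_⟩
    rw [hGd]
    fin_cases t
    · exact hf p hp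
    · exact hgF p hp
  set T : Set ℕ := {N : ℕ | ∃ α : ℝ, ∃ y ≤ N, δ * N < ‖Cg G hs y α‖} with hT
  set B : Set ℕ := {m : ℕ | ∃ α : ℝ, δ₀ * m < ‖Cg G hs m α‖} with hB
  set Mj : Set ℕ := {m : ℕ | ∃ α : ℝ, ¬ GdM R m α ∧ δ₀ * m < ‖Cg G hs m α‖} with hMj
  -- partial sums
  have h1 : sE T X ≤ 4 / (δ / 2) * sE B (2 * X) := by
    refine (sE_mono ?_ X).trans (thick B (δ / 2) (by positivity) (by linarith) X)
    rintro N ⟨α, y, hyN, hbig⟩
    have hN0 : 0 < N := by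
      rcases Nat.eq_zero_or_pos N with h0 | h0
      · exfalso
        have hy : y = 0 := by omega
        rw [h0, hy, Cg_zero] at hbig
        simp at hbig
      · exact h0
    obtain ⟨h2, h3⟩ := near G hGb hs δ hδ hδ1 α N y hyN hN0 hbig
    exact ⟨y, h2, hyN, fun m hm1 hm2 => ⟨α, h3 m hm1 hm2⟩⟩
  -- minor and major arcs
  have h2 : sE B (2 * X) ≤ sE (Bad G hs GdM R δ₀) (2 * X) + sE Mj (2 * X) := by
    refine (sE_mono ?_ _).trans (sE_union _ _ _)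
    rintro m ⟨α, hα⟩
    by_cases h : GdM R m α
    · exact Or.inl ⟨α, h, hα⟩
    · exact Or.inr ⟨α, h, hα⟩
  have h3 := hX₁ (2 * X) (by omega) G hCF
  have h4 : sE Mj (2 * X) ≤ ∑ q ∈ range (R + 1), ∑ j ∈ range (R + 1),
      (if 1 ≤ q ∧ IsCoprime (j : ℤ) (q : ℤ) then
        4 / (δ₁ / 2) * sE {N : ℕ | δ₁ / 4 * N < ‖Cg G hs N (j / q)‖} (2 * (2 * X)) else 0) := by
    classical
    set Fj : ℕ × ℕ → Set ℕ := fun t => if 1 ≤ t.1 ∧ IsCoprime (t.2 : ℤ) (t.1 : ℤ) then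
      {N : ℕ | ∃ y : ℕ, δ₁ / 2 * N ≤ y ∧ y ≤ N ∧ ∀ m : ℕ, y ≤ m → (m : ℝ) ≤ y + δ₁ / 2 * N →
        m ∈ {N : ℕ | δ₁ / 4 * N < ‖Cg G hs N (t.2 / t.1)‖}} else ∅ with hFj
    have h5 := sE_cover (range (R + 1) ×ˢ range (R + 1)) Mj Fj (by
      rintro m ⟨α, hα1, hα2⟩
      have hm0 : 0 < m := by
        rcases Nat.eq_zero_or_pos m with h0 | h0
        · exfalso
          rw [h0, Cg_zero] at hα2
          simp at hα2
        · exact h0
      unfold GdM at hα1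
      push Not at hα1
      obtain ⟨q, hq1, hqR, A, hA⟩ := hα1
      obtain ⟨q', j, z, hq'1, hq'q, hj, hcop, hAq⟩ := red_frac q hq1 A
      obtain ⟨y, hyN, hy⟩ := close_rat G hs δ₀ hδ₀0 α R (Nat.cast_nonneg R) m (A / q) hA.le hα2
      rw [hAq, Cg_int] at hy
      refine ⟨(q', j), by
        rw [mem_product, mem_range, mem_range]
        constructor
        · show q' < R + 1
          omega
        · show j < R + 1
          omega, ?_⟩
      rw [hFj]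
      show m ∈ (if 1 ≤ q' ∧ IsCoprime (j : ℤ) (q' : ℤ) then
        {N : ℕ | ∃ y : ℕ, δ₁ / 2 * N ≤ y ∧ y ≤ N ∧ ∀ m : ℕ, y ≤ m → (m : ℝ) ≤ y + δ₁ / 2 * N →
          m ∈ {N : ℕ | δ₁ / 4 * N < ‖Cg G hs N (j / q')‖}} else ∅)
      rw [if_pos ⟨hq'1, hcop⟩]
      obtain ⟨h6, h7⟩ := near G hGb hs δ₁ hδ₁0 hδ₁1 (j / q') m y hyN hm0 hy
      exact ⟨y, h6, hyN, h7⟩) (2 * X)
    rw [sum_product] at h5
    refine h5.trans (sum_le_sum fun q _ => sum_le_sum fun j _ => ?_)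
    rw [hFj]
    show sE (if 1 ≤ q ∧ IsCoprime (j : ℤ) (q : ℤ) then
        {N : ℕ | ∃ y : ℕ, δ₁ / 2 * N ≤ y ∧ y ≤ N ∧ ∀ m : ℕ, y ≤ m → (m : ℝ) ≤ y + δ₁ / 2 * N →
          m ∈ {N : ℕ | δ₁ / 4 * N < ‖Cg G hs N (j / q)‖}} else ∅) (2 * X) ≤ _
    split_ifs with h6
    · exact thick _ (δ₁ / 2) (by positivity) (by linarith) (2 * X)
    · unfold sE ind
      simp
  have h5 : ∑ q ∈ range (R + 1), ∑ j ∈ range (R + 1),
      (if 1 ≤ q ∧ IsCoprime (j : ℤ) (q : ℤ) then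
        4 / (δ₁ / 2) * sE {N : ℕ | δ₁ / 4 * N < ‖Cg G hs N (j / q)‖} (2 * (2 * X)) else 0) ≤
      η * δ / 32 * (2 * Real.log X) := by
    have e1 : ∀ q ∈ range (R + 1), ∀ j ∈ range (R + 1), (if 1 ≤ q ∧ IsCoprime (j : ℤ) (q : ℤ) then
        4 / (δ₁ / 2) * sE {N : ℕ | δ₁ / 4 * N < ‖Cg G hs N (j / q)‖} (2 * (2 * X)) else 0) ≤
        4 / (δ₁ / 2) * (η₂ * (4 * Real.log X)) := by
      intro q hq j hj
      split_ifs with h6
      · apply mul_le_mul_of_nonneg_left _ (by positivity)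
        have h7 : X₂ q j ≤ ∑ q ∈ range (R + 1), ∑ j ∈ range (R + 1), X₂ q j :=
          (single_le_sum (f := fun j => X₂ q j) (fun _ _ => Nat.zero_le _) hj).trans
            (single_le_sum (f := fun q => ∑ j ∈ range (R + 1), X₂ q j) (fun _ _ => Nat.zero_le _) hq)
        refine (hX₂ q j (2 * (2 * X)) (by omega) g hg h6.1 h6.2).trans ?_
        apply mul_le_mul_of_nonneg_left _ hη₂0.le
        linarith
      · positivity
    refine (sum_le_sum fun q hq => sum_le_sum fun j hj => e1 q hq j hj).trans (le_of_eq ?_)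
    rw [sum_const, sum_const, card_range, nsmul_eq_mul, nsmul_eq_mul, hη₂]
    push_cast
    field_simp
    ring
  have h6 : sE B (2 * X) ≤ η * δ / 8 * Real.log X := by
    have e1 : η * δ / 32 * Real.log ((2 * X : ℕ) : ℝ) ≤ η * δ / 32 * (2 * Real.log X) :=
      mul_le_mul_of_nonneg_left hlX (by positivity)
    have e2 : η * δ / 32 * (2 * Real.log X) + η * δ / 32 * (2 * Real.log X) = η * δ / 8 * Real.log X := by ring
    linarith [h4.trans h5]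
  calc sE T X ≤ 4 / (δ / 2) * sE B (2 * X) := h1
    _ ≤ 4 / (δ / 2) * (η * δ / 8 * Real.log X) := mul_le_mul_of_nonneg_left h6 (by positivity)
    _ = η * Real.log X := by field_simp; ring

end Pool.Agent.Y842.QG
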